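import Pool.Agent.U196.SO.Stm

set_option autoImplicit false

/-! Project SO (helper196), job LINE (helper351): the smooth average of `log|ζ|` on the line `a`
(the proof of `Pool.Agent.Q257.UM.VA.t_VAV` with a parameter). -/

namespace Pool.Agent.U351.SO

open Filter Topology MeasureTheory Complex
open Pool.Agent.Q97.UM Pool.Agent.Q257.UM.VA Pool.Agent.Q257.UM
open Pool.Agent.U196.SO (S_LINE J_LINE)

noncomputable section

variable {ψ₁ k₀ : ℝ → ℝ}

/-- one zero -/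
theorem one_zero_a {C D δ L t a : ℝ} (hC : 0 ≤ C) (hδ : 0 < δ) (hδ1 : δ ≤ 1) (hL : 0 < L) (hDe : D = δ * L)
    (h : ∀ D : ℝ, 0 < D → ∀ z : ℂ, 0 ≤ z.re → ‖kap ψ₁ D z‖ ≤ C * (D * Real.exp (D * z.re) / (1 + D * ‖z‖) ^ 2))
    (s : ℂ) (ha : 1 / 2 ≤ a) (hs : a < s.re) :
    |∫ σ in a..s.re, (kap ψ₁ D (s - (σ + t * I))).re| ≤
      C / δ ^ 2 * (Real.exp (2 * δ * (L * |s.re - 1 / 2|)) / (1 + L * |s.im - t|) ^ 2) := by
  have hD : 0 < D := by rw [hDe]; positivity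
  have hs' : 1 / 2 < s.re := by linarith
  have h1 : ∀ σ ∈ Set.uIoc a s.re, ‖(kap ψ₁ D (s - (σ + t * I))).re‖ ≤
      C * (D * Real.exp (D * (s.re - 1 / 2)) / (1 + D * |s.im - t|) ^ 2) := by
    intro σ hσ
    rw [Set.uIoc_of_le hs.le] at hσ
    have e1 : (s - (σ + t * I)).re = s.re - σ := by simp
    have e2 : (s - (σ + t * I)).im = s.im - t := by simp
    refine (Complex.abs_re_le_norm _).trans ((h D hD _ (by rw [e1]; linarith [hσ.2])).trans ?_)
    refine mul_le_mul_of_nonneg_left ?_ hC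
    have e3 : |s.im - t| ≤ ‖s - (σ + t * I)‖ := by rw [← e2]; exact Complex.abs_im_le_norm _
    rw [e1]
    have e4 : Real.exp (D * (s.re - σ)) ≤ Real.exp (D * (s.re - 1 / 2)) := by
      refine Real.exp_le_exp.2 ?_
      have := hσ.1
      have h9 : s.re - σ ≤ s.re - 1 / 2 := by linarith
      exact mul_le_mul_of_nonneg_left h9 hD.le
    gcongr
  have h2 := intervalIntegral.norm_integral_le_of_norm_le_const h1
  rw [Real.norm_eq_abs, abs_of_pos (by linarith : 0 < s.re - a)] at h2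
  refine h2.trans ?_
  rw [abs_of_pos (by linarith : 0 < s.re - 1 / 2)]
  set v := D * (s.re - 1 / 2) with hv
  have hv0 : 0 < v := mul_pos hD (by linarith)
  have h3 : v * Real.exp v ≤ Real.exp (2 * v) := by
    have : v ≤ Real.exp v := by linarith [Real.add_one_le_exp v]
    calc v * Real.exp v ≤ Real.exp v * Real.exp v := mul_le_mul_of_nonneg_right this (Real.exp_pos _).le
      _ = Real.exp (2 * v) := by rw [← Real.exp_add]; congr 1; ring
  have e5 : 2 * δ * (L * (s.re - 1 / 2)) = 2 * v := by rw [hv, hDe]; ring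
  rw [e5]
  have h4 : δ * (1 + L * |s.im - t|) ≤ 1 + D * |s.im - t| := by
    rw [hDe]
    have : 0 ≤ L * |s.im - t| := by positivity
    nlinarith
  have h5 : 0 < 1 + L * |s.im - t| := by positivity
  have h6 : 0 ≤ C * (D * Real.exp v / (1 + D * |s.im - t|) ^ 2) := by positivity
  calc C * (D * Real.exp v / (1 + D * |s.im - t|) ^ 2) * (s.re - a) ≤
        C * (D * Real.exp v / (1 + D * |s.im - t|) ^ 2) * (s.re - 1 / 2) :=
        mul_le_mul_of_nonneg_left (by linarith) h6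
    _ = C * ((v * Real.exp v) / (1 + D * |s.im - t|) ^ 2) := by rw [hv]; ring
    _ ≤ C * (Real.exp (2 * v) / (δ * (1 + L * |s.im - t|)) ^ 2) := by gcongr
    _ = _ := by field_simp

theorem prime_a (hKB : S_KB) (hK : Ker ψ₁ k₀) : ∃ C : ℝ, 0 ≤ C ∧ ∀ D T t c d a : ℝ, 1 ≤ D → Real.exp D ≤ T →
    c ≤ t - T / 8 → t + T / 8 ≤ d → 1 / 2 ≤ a → a < 3 / 2 →
    |-(∫ σ in a..(3 / 2), (∫ y in c..d, deriv riemannZeta ⟨3 / 2, y⟩ / riemannZeta ⟨3 / 2, y⟩ *
      kap ψ₁ D (((3 / 2 - σ : ℝ) : ℂ) + (y - t : ℝ) * I)).re) - ∫ r in (0 : ℝ)..(3 / 2 - a), (SP ψ₁ D t r).re| ≤ C := by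
  obtain ⟨C, hC, h⟩ := far hKB hK
  refine ⟨C, hC, fun D T t c d a hD hT hc hd ha ha2 => ?_⟩
  set V : ℝ → ℂ := fun r => ∫ y in c..d, Gz y * kap ψ₁ D ((r : ℂ) + ((y - t : ℝ) : ℂ) * I) with hV
  have hVc : Continuous V := by
    refine intervalIntegral.continuous_parametric_intervalIntegral_of_continuous' (f := fun r y : ℝ =>
      Gz y * kap ψ₁ D ((r : ℂ) + ((y - t : ℝ) : ℂ) * I)) ?_ c d
    exact (Gz_cont.comp continuous_snd).mul (kap_cont hK D t)
  have e0 : (∫ σ in a..(3 / 2), (∫ y in c..d, deriv riemannZeta ⟨3 / 2, y⟩ / riemannZeta ⟨3 / 2, y⟩ *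
      kap ψ₁ D (((3 / 2 - σ : ℝ) : ℂ) + (y - t : ℝ) * I)).re) = ∫ r in (0 : ℝ)..(3 / 2 - a), (V r).re := by
    have h1 := intervalIntegral.integral_comp_sub_left (a := a) (b := 3 / 2) (fun r => (V r).re) (3 / 2)
    rw [show (3 / 2 - 3 / 2 : ℝ) = 0 by norm_num] at h1
    exact h1
  rw [e0]
  have hSc := SP_cont ψ₁ D t
  have h2 : |(∫ r in (0 : ℝ)..(3 / 2 - a), (V r).re) + ∫ r in (0 : ℝ)..(3 / 2 - a), (SP ψ₁ D t r).re| ≤ C := by
    have i1 : IntervalIntegrable (fun r => (V r).re) volume 0 (3 / 2 - a) := (continuous_re.comp hVc).intervalIntegrable _ _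
    have i2 : IntervalIntegrable (fun r => (SP ψ₁ D t r).re) volume 0 (3 / 2 - a) :=
      (continuous_re.comp hSc).intervalIntegrable _ _
    rw [← intervalIntegral.integral_add i1 i2]
    have h3 := intervalIntegral.norm_integral_le_of_norm_le_const (a := 0) (b := 3 / 2 - a)
      (f := fun r => (V r).re + (SP ψ₁ D t r).re) (C := C) (fun r hr => ?_)
    · rw [sub_zero, abs_of_pos (by linarith : 0 < 3 / 2 - a)] at h3
      refine h3.trans ?_
      calc C * (3 / 2 - a) ≤ C * 1 := mul_le_mul_of_nonneg_left (by linarith) hC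
        _ = C := mul_one C
    · rw [Set.uIoc_of_le (by linarith)] at hr
      have h4 := h D T t c d r hD hT hc hd hr.1.le (by linarith [hr.2])
      rw [← Complex.add_re]
      exact (Complex.abs_re_le_norm _).trans h4
  have h5 : -(∫ r in (0 : ℝ)..(3 / 2 - a), (V r).re) - (∫ r in (0 : ℝ)..(3 / 2 - a), (SP ψ₁ D t r).re) =
      -((∫ r in (0 : ℝ)..(3 / 2 - a), (V r).re) + ∫ r in (0 : ℝ)..(3 / 2 - a), (SP ψ₁ D t r).re) := by ring
  rw [h5, abs_neg]
  exact h2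

open Classical in
theorem line (hKB : S_KB) (hLIT : S_LIT) : S_LINE := by
  intro ψ₁ k₀ hK δ hδ hδ1
  obtain ⟨Cp, hCp, hprime⟩ := prime_a hKB hK
  obtain ⟨C2, hC2, hk2⟩ := kap_bd hKB hK 2
  obtain ⟨C3, hC3, hk3⟩ := kap_bd hKB hK 3
  obtain ⟨B0, hB0, hlog⟩ := log_bd
  obtain ⟨Cg, hCg, hgood⟩ := H370.good_height H370.good_zeta
  have hpi := Real.pi_pos
  refine ⟨B0 + Cp + 2 * Real.pi * (C2 / δ ^ 2) + 4096 * Cg * C3, by positivity, ?_⟩
  filter_upwards [eventually_ge_atTop (Real.exp (1 / δ)), eventually_ge_atTop 64] with T hT1 hT2 t ht1 ht2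
  have hT0 : 0 < T := by linarith
  have hL : 1 / δ ≤ Real.log T := by rw [Real.le_log_iff_exp_le hT0]; exact hT1
  set L := Real.log T with hLdef
  have hL0 : 0 < L := lt_of_lt_of_le (by positivity) hL
  set D := δ * L with hD
  have hD1 : 1 ≤ D := by
    rw [div_le_iff₀ hδ] at hL
    rw [hD]; linarith
  have hD0 : 0 < D := by linarith
  have hDT : Real.exp D ≤ T := by
    rw [← Real.le_log_iff_exp_le hT0, hD, ← hLdef]
    nlinarith
  obtain ⟨U1, hU1, hg1⟩ := hgood (t - T / 8 - 1) (by linarith)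
  obtain ⟨U2, hU2, hg2⟩ := hgood (t + T / 8) (by linarith)
  obtain ⟨hU1a, hU1b⟩ := hU1
  obtain ⟨hU2a, hU2b⟩ := hU2
  have hU1b' : U1 ≤ t - T / 8 := by linarith
  refine ⟨U1, U2, hU1a, hU1b', hU2a, hU2b, ?_⟩
  intro a ha ha2
  have hU : U1 < U2 := by linarith
  set Z : Finset ℂ := (ZD T).filter (fun s => a < s.re ∧ U1 < s.im ∧ s.im < U2) with hZ
  have hlit := hLIT riemannZeta (kap ψ₁ D) a (3 / 2) U1 U2 t Z ha2 hU
    (fun s hs => z_an (fun h => by
      have h1 : U1 ≤ s.im := hs.2.1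
      rw [h, one_im] at h1
      linarith))
    (kap_diff hK D)
    (fun y => by rw [kap_im hK, ofReal_im])
    (fun x hx => ⟨(hg1 x ⟨by linarith [hx.1], hx.2⟩).1, (hg2 x ⟨by linarith [hx.1], hx.2⟩).1⟩)
    (fun y _ => z_ne y)
    (fun s => by
      rw [hZ, Finset.mem_filter, mem_ZD (by linarith)]
      constructor
      · rintro ⟨⟨h1, h2, h3, h4, h5⟩, h6, h7, h8⟩
        exact ⟨h6, by linarith, h7, h8, h5⟩
      · rintro ⟨h1, h2, h3, h4, h5⟩
        have h6 : s.re < 1 := by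
          by_contra hcon
          push Not at hcon
          exact riemannZeta_ne_zero_of_one_le_re hcon h5
        exact ⟨⟨by linarith, h6, by linarith, by linarith, h5⟩, h1, h3, h4⟩)
  have efun : (fun y : ℝ => (kap ψ₁ D (((y - t : ℝ) : ℂ) * I)).re * Real.log ‖riemannZeta ⟨a, y⟩‖) =
      fun u => D * k₀ (D * (u - t)) * Real.log ‖riemannZeta ⟨a, u⟩‖ := by
    funext y
    rw [kap_im hK, ofReal_re]
  have hint := hlit.1
  have heq := hlit.2
  rw [efun] at hint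
  refine ⟨hint, ?_⟩
  have e0 : (∫ u in U1..U2, D * k₀ (D * (u - t)) * Real.log ‖riemannZeta ⟨a, u⟩‖) =
      ∫ y in U1..U2, (kap ψ₁ D (((y - t : ℝ) : ℂ) * I)).re * Real.log ‖riemannZeta ⟨a, y⟩‖ := by
    refine intervalIntegral.integral_congr fun y _ => ?_
    exact (congrFun efun y).symm
  rw [e0, heq]
  have t1 := edge (t := t) hKB hK hD0 hU.le hB0 hlog
  have t2 := hprime D T t U1 U2 a hD1 hDT hU1b' hU2a ha ha2
  have t3 : |∑ s ∈ Z, (H370.mult riemannZeta s : ℝ) * ∫ σ in a..s.re, (kap ψ₁ D (s - (σ + t * I))).re| ≤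
      C2 / δ ^ 2 * SS δ T t := by
    refine (Finset.abs_sum_le_sum_abs _ _).trans ?_
    unfold SS
    rw [Finset.mul_sum]
    refine le_trans (Finset.sum_le_sum (g := fun s => C2 / δ ^ 2 * ((mz s : ℝ) * (Real.exp (2 * δ * (Real.log T * |s.re - 1 / 2|)) /
      (1 + Real.log T * |s.im - t|) ^ 2))) fun s hs => ?_) (Finset.sum_le_sum_of_subset_of_nonneg (Finset.filter_subset _ _)
        fun s _ _ => ?_)
    · rw [abs_mul, Nat.abs_cast]
      have h1 := one_zero_a (L := L) (t := t) hC2 hδ (by linarith) hL0 hD hk2 s ha (Finset.mem_filter.1 hs).2.1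
      calc (H370.mult riemannZeta s : ℝ) * |∫ σ in a..s.re, (kap ψ₁ D (s - (σ + t * I))).re| ≤
            (mz s : ℝ) * (C2 / δ ^ 2 * (Real.exp (2 * δ * (L * |s.re - 1 / 2|)) / (1 + L * |s.im - t|) ^ 2)) :=
            mul_le_mul_of_nonneg_left h1 (Nat.cast_nonneg _)
        _ = _ := by rw [hLdef]; ring
    · positivity
  have t4 : |∫ σ in a..(3 / 2), ((∫ x in σ..(3 / 2), deriv riemannZeta ⟨x, U1⟩ / riemannZeta ⟨x, U1⟩ *
      kap ψ₁ D (((x - σ : ℝ) : ℂ) + (U1 - t : ℝ) * I)) - (∫ x in σ..(3 / 2), deriv riemannZeta ⟨x, U2⟩ / riemannZeta ⟨x, U2⟩ *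
      kap ψ₁ D (((x - σ : ℝ) : ℂ) + (U2 - t : ℝ) * I))).im| ≤ 4096 * Cg * C3 := by
    have h1 := intervalIntegral.norm_integral_le_of_norm_le_const (a := a) (b := 3 / 2)
      (f := fun σ => ((∫ x in σ..(3 / 2), deriv riemannZeta ⟨x, U1⟩ / riemannZeta ⟨x, U1⟩ *
        kap ψ₁ D (((x - σ : ℝ) : ℂ) + (U1 - t : ℝ) * I)) - (∫ x in σ..(3 / 2), deriv riemannZeta ⟨x, U2⟩ / riemannZeta ⟨x, U2⟩ *
        kap ψ₁ D (((x - σ : ℝ) : ℂ) + (U2 - t : ℝ) * I))).im) (C := 4096 * Cg * C3) (fun σ hσ => ?_)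
    · rw [Real.norm_eq_abs, abs_of_pos (by linarith : 0 < 3 / 2 - a)] at h1
      refine h1.trans ?_
      have p : 0 ≤ 4096 * Cg * C3 := by positivity
      calc 4096 * Cg * C3 * (3 / 2 - a) ≤ 4096 * Cg * C3 * 1 := mul_le_mul_of_nonneg_left (by linarith) p
        _ = _ := mul_one _
    · rw [Set.uIoc_of_le ha2.le] at hσ
      have a1 := horiz (ψ₁ := ψ₁) (t := t) hC3 hCg.le hD1 hDT (by linarith) hk3 (c := U1) (V := t - T / 8 - 1)
        (by rw [abs_sub_comm, abs_of_pos (by linarith)]; linarith) (by linarith) (by linarith) hg1 (ha.trans hσ.1.le) hσ.2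
      have a2 := horiz (ψ₁ := ψ₁) (t := t) hC3 hCg.le hD1 hDT (by linarith) hk3 (c := U2) (V := t + T / 8)
        (by rw [abs_of_pos (by linarith)]; linarith) (by linarith) (by linarith) hg2 (ha.trans hσ.1.le) hσ.2
      refine (Complex.abs_im_le_norm _).trans ((norm_sub_le _ _).trans ?_)
      linarith
  have hSS := SS_nonneg δ T t
  set A0 := ∫ r in (0 : ℝ)..(3 / 2 - a), (SP ψ₁ D t r).re with hA0
  set A1 := ∫ y in U1..U2, (kap ψ₁ D (((y - t : ℝ) : ℂ) * I)).re * Real.log ‖riemannZeta ⟨3 / 2, y⟩‖ with hA1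
  set A2 := ∫ σ in a..(3 / 2), (∫ y in U1..U2, deriv riemannZeta ⟨3 / 2, y⟩ / riemannZeta ⟨3 / 2, y⟩ *
      kap ψ₁ D (((3 / 2 - σ : ℝ) : ℂ) + (y - t : ℝ) * I)).re with hA2
  set A3 := ∑ s ∈ Z, (H370.mult riemannZeta s : ℝ) * ∫ σ in a..s.re, (kap ψ₁ D (s - (σ + t * I))).re with hA3
  set A4 := ∫ σ in a..(3 / 2), ((∫ x in σ..(3 / 2), deriv riemannZeta ⟨x, U1⟩ / riemannZeta ⟨x, U1⟩ *
      kap ψ₁ D (((x - σ : ℝ) : ℂ) + (U1 - t : ℝ) * I)) - (∫ x in σ..(3 / 2), deriv riemannZeta ⟨x, U2⟩ / riemannZeta ⟨x, U2⟩ *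
      kap ψ₁ D (((x - σ : ℝ) : ℂ) + (U2 - t : ℝ) * I))).im with hA4
  have e1 : A1 - A2 + 2 * Real.pi * A3 - A4 - A0 = A1 + (-A2 - A0) + 2 * Real.pi * A3 + -A4 := by ring
  rw [e1]
  have h3 : |2 * Real.pi * A3| ≤ 2 * Real.pi * (C2 / δ ^ 2 * SS δ T t) := by
    rw [abs_mul, abs_of_pos (by positivity : 0 < 2 * Real.pi)]
    exact mul_le_mul_of_nonneg_left t3 (by positivity)
  have h4 : |A1 + (-A2 - A0) + 2 * Real.pi * A3 + -A4| ≤ |A1| + |-A2 - A0| + |2 * Real.pi * A3| + |A4| := by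
    rw [← abs_neg A4]
    exact (abs_add_le _ _).trans (add_le_add ((abs_add_le _ _).trans (add_le_add (abs_add_le _ _) le_rfl)) le_rfl)
  refine h4.trans ?_
  have h5 : |A1| + |-A2 - A0| + |2 * Real.pi * A3| + |A4| ≤
      B0 + Cp + 2 * Real.pi * (C2 / δ ^ 2 * SS δ T t) + 4096 * Cg * C3 := by linarith
  refine h5.trans ?_
  have p1 : 0 ≤ 2 * Real.pi * (C2 / δ ^ 2) := by positivity
  have p2 : 0 ≤ 4096 * Cg * C3 * SS δ T t := by positivity
  have p3 : 0 ≤ (B0 + Cp) * SS δ T t := by positivity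
  nlinarith

theorem t_LINE : Pool.Agent.U196.SO.J_LINE := line

end

end Pool.Agent.U351.SO
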